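import Pool.Agent.Helper82.PN.Goals

/-!
Project PN, packet PFIN: measurability, finiteness and boundedness of `aK K`.
-/

set_option autoImplicit false

open MeasureTheory Set
open scoped ENNReal
open Pool.Agent.Helper47.AQ Pool.Agent.Helper82.PN

namespace Pool.Agent.Helper22.PN

theorem int1 (ε : ℝ) (hε : 0 < ε) : Integrable (fun x : ℝ => Real.exp (-(ε * |x|))) := by
  have h := integrable_inv_one_add_sq.const_mul (1 + 2 / ε ^ 2)
  refine h.mono' (by fun_prop) (ae_of_all _ fun x => ?_)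
  rw [Real.norm_of_nonneg (Real.exp_pos _).le, Real.exp_neg, ← div_eq_mul_inv,
    le_div_iff₀ (by positivity), inv_mul_le_iff₀ (Real.exp_pos _)]
  have h1 := Real.quadratic_le_exp_of_nonneg (x := ε * |x|) (by positivity)
  have h2 : 1 ≤ Real.exp (ε * |x|) := Real.one_le_exp (by positivity)
  have h3 : (ε * |x|) ^ 2 = ε ^ 2 * x ^ 2 := by rw [mul_pow, sq_abs]
  have h4 : x ^ 2 ≤ 2 / ε ^ 2 * Real.exp (ε * |x|) := by
    rw [div_mul_eq_mul_div, le_div_iff₀ (by positivity)]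
    have : 0 ≤ ε * |x| := by positivity
    nlinarith
  nlinarith

theorem intm (ε : ℝ) (hε : 0 < ε) (m : ℕ) :
    Integrable (fun ξ : Fin m → ℝ => Real.exp (-(ε * ∑ i, |ξ i|))) := by
  have h := Integrable.fintype_prod (ι := Fin m) (μ := fun _ => (volume : Measure ℝ))
    (f := fun _ (x : ℝ) => Real.exp (-(ε * |x|))) fun _ => int1 ε hε
  refine h.congr (ae_of_all _ fun ξ => ?_)
  simp only
  rw [← Real.exp_sum]
  congr 1
  rw [Finset.mul_sum, Finset.sum_neg_distrib]

theorem gPFIN : PFIN := by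
  intro m K hK
  obtain ⟨ε, hε, hwd⟩ := hK.le_wd
  have hmc : Measurable (fun p : ℝ × (Fin m → ℝ) => (Fin.cons (1 / p.1) p.2 : Fin (m + 1) → ℝ)) := by
    refine measurable_pi_iff.2 fun i => ?_
    refine Fin.cases ?_ (fun j => ?_) i
    · simp only [Fin.cons_zero]
      fun_prop
    · simp only [Fin.cons_succ]
      fun_prop
  have hm2 : Measurable (fun p : ℝ × (Fin m → ℝ) =>
      ENNReal.ofReal (Real.exp (-(wd K (Fin.cons (1 / p.1) p.2 : Fin (m + 1) → ℝ))))) := by
    have h1 : Measurable (fun p : ℝ × (Fin m → ℝ) =>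
      wd K (Fin.cons (1 / p.1) p.2 : Fin (m + 1) → ℝ)) := hK.wd_continuous.measurable.comp hmc
    exact (Real.measurable_exp.comp h1.neg).ennreal_ofReal
  have hFi : Measurable (Fi K) := hm2.lintegral_prod_right'
  have haK : Measurable (aK K) := by
    unfold aK
    exact (hFi.ennreal_toReal.sqrt).div measurable_id
  set C : ℝ≥0∞ := ∫⁻ ξ : Fin m → ℝ, ENNReal.ofReal (Real.exp (-(ε * ∑ i, |ξ i|))) with hC
  have hCtop : C ≠ ⊤ := (intm ε hε m).lintegral_lt_top.ne
  have hle : ∀ s : ℝ, 0 < s → Fi K s ≤ ENNReal.ofReal (Real.exp (-(ε / s))) * C := by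
    intro s hs
    unfold Fi
    rw [hC, ← lintegral_const_mul _ (by fun_prop)]
    refine lintegral_mono fun ξ => ?_
    rw [← ENNReal.ofReal_mul (Real.exp_pos _).le, ← Real.exp_add]
    refine ENNReal.ofReal_le_ofReal (Real.exp_le_exp.2 ?_)
    have h1 := hwd (Fin.cons (1 / s) ξ : Fin (m + 1) → ℝ)
    rw [Fin.sum_univ_succ] at h1
    simp only [Fin.cons_zero, Fin.cons_succ] at h1
    rw [abs_of_pos (by positivity : (0 : ℝ) < 1 / s)] at h1
    have h2 : ε * (1 / s + ∑ i, |ξ i|) = ε / s + ε * ∑ i, |ξ i| := by ring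
    rw [h2] at h1
    linarith
  have hfin : ∀ s : ℝ, 0 < s → Fi K s ≠ ⊤ := fun s hs =>
    ne_top_of_le_ne_top (ENNReal.mul_ne_top ENNReal.ofReal_ne_top hCtop) (hle s hs)
  have hne : ∀ s : ℝ, Fi K s ≠ 0 := by
    intro s h0
    unfold Fi at h0
    have hms : Measurable (fun ξ : Fin m → ℝ =>
        ENNReal.ofReal (Real.exp (-(wd K (Fin.cons (1 / s) ξ : Fin (m + 1) → ℝ))))) :=
      hm2.comp (g := fun p : ℝ × (Fin m → ℝ) =>
        ENNReal.ofReal (Real.exp (-(wd K (Fin.cons (1 / p.1) p.2 : Fin (m + 1) → ℝ)))))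
        (f := fun ξ : Fin m → ℝ => (s, ξ)) measurable_prodMk_left
    rw [lintegral_eq_zero_iff hms] at h0
    have h1 : ∀ᵐ ξ : Fin m → ℝ, False := by
      filter_upwards [h0] with ξ hξ
      have : 0 < ENNReal.ofReal (Real.exp (-(wd K (Fin.cons (1 / s) ξ : Fin (m + 1) → ℝ)))) :=
        ENNReal.ofReal_pos.2 (Real.exp_pos _)
      exact this.ne' hξ
    have h2 := h1.exists
    simp at h2
  have hpos : ∀ s : ℝ, 0 < s → 0 < aK K s := fun s hs =>
    div_pos (Real.sqrt_pos.2 (ENNReal.toReal_pos (hne s) (hfin s hs))) hs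
  refine ⟨hFi, haK, fun s hs => ⟨hne s, hfin s hs⟩, hpos, √(2 * C.toReal) / ε, fun s hs => ?_⟩
  unfold aK
  rw [div_le_iff₀ hs]
  refine Real.sqrt_le_iff.2 ⟨by positivity, ?_⟩
  have h1 : (Fi K s).toReal ≤ Real.exp (-(ε / s)) * C.toReal := by
    have h2 := ENNReal.toReal_mono (ENNReal.mul_ne_top ENNReal.ofReal_ne_top hCtop) (hle s hs)
    rw [ENNReal.toReal_mul, ENNReal.toReal_ofReal (Real.exp_pos _).le] at h2
    exact h2
  refine h1.trans ?_
  have h3 : (√(2 * C.toReal) / ε * s) ^ 2 = 2 * (s / ε) ^ 2 * C.toReal := by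
    rw [mul_pow, div_pow, Real.sq_sqrt (by positivity)]
    ring
  rw [h3]
  refine mul_le_mul_of_nonneg_right ?_ ENNReal.toReal_nonneg
  have h4 := Real.quadratic_le_exp_of_nonneg (x := ε / s) (by positivity)
  have h5 : 0 < ε / s := by positivity
  rw [Real.exp_neg, inv_eq_one_div, div_le_iff₀ (Real.exp_pos _)]
  have h6 : (s / ε) ^ 2 * (ε / s) ^ 2 = 1 := by
    rw [← mul_pow]
    have : s / ε * (ε / s) = 1 := by field_simp
    rw [this, one_pow]
  have h7 : 0 < (s / ε) ^ 2 := by positivity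
  nlinarith

end Pool.Agent.Helper22.PN
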